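import Pool.Agent.X322.Bt4

namespace Pool.Agent.Results.MP_a0c75d_an.Basin
open Filter Topology Set

/-- The solution of the recurrence with initial values `x_{-1} = u`, `x_0 = v`;
`orb α A B u v n` is the term `x_{n-1}`. -/
noncomputable def orb (α A B u v : ℝ) : ℕ → ℝ
  | 0 => u
  | 1 => v
  | (n+2) => (α + orb α A B u v n)/(A + B * orb α A B u v (n+1) + orb α A B u v n)

/-- The admissible initial pairs. -/
def Adm (A u v : ℝ) : Prop := 0 ≤ u ∧ 0 ≤ v ∧ (A = 0 → (u, v) ≠ (0, 0))

/-- The equilibrium. -/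
noncomputable def xbar (α A B : ℝ) : ℝ :=
  (1 - A + √((1-A)^2 + 4*α*(1+B)))/(2*(1+B))

/-- The smaller point of the two-cycle. -/
noncomputable def mlow (α A B : ℝ) : ℝ := (1 - A - √((1-A)^2 - 4*α/(B-1)))/2

/-- The larger point of the two-cycle. -/
noncomputable def Mhigh (α A B : ℝ) : ℝ := (1 - A + √((1-A)^2 - 4*α/(B-1)))/2

/-- `(x_{2n}, x_{2n+1}) → (a, b)`. -/
def CycTo (α A B u v a b : ℝ) : Prop :=
  Tendsto (fun n : ℕ => (orb α A B u v (2*n+1), orb α A B u v (2*n+2))) atTop (𝓝 (a, b))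

/-- The set `S`: the admissible pairs whose solution converges to the two-cycle. -/
def InS (α A B u v : ℝ) : Prop :=
  Adm A u v ∧ (CycTo α A B u v (mlow α A B) (Mhigh α A B) ∨
    CycTo α A B u v (Mhigh α A B) (mlow α A B))

/-- All the terms lie strictly on the same side of the equilibrium, or all are equal to it. -/
def OneSided (α A B u v : ℝ) : Prop :=
  (∀ n, orb α A B u v n = xbar α A B) ∨ (∀ n, xbar α A B < orb α A B u v n) ∨
    (∀ n, orb α A B u v n < xbar α A B)

lemma orb_eq (α A B u v : ℝ) (n : ℕ) :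
    orb α A B u v n = Pool.Agent.X322.Bt.sol α A B u v n ∧
    orb α A B u v (n+1) = Pool.Agent.X322.Bt.sol α A B u v (n+1) := by
  induction n with
  | zero => exact ⟨rfl, rfl⟩
  | succ n ih =>
    refine ⟨ih.2, ?_⟩
    have h1 : orb α A B u v (n+1+1) =
      (α + orb α A B u v n)/(A + B * orb α A B u v (n+1) + orb α A B u v n) := by
      simp only [orb]
    have h2 : Pool.Agent.X322.Bt.sol α A B u v (n+1+1) =
      (α + Pool.Agent.X322.Bt.sol α A B u v n)/(A + B * Pool.Agent.X322.Bt.sol α A B u v (n+1)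
        + Pool.Agent.X322.Bt.sol α A B u v n) := by
      simp only [Pool.Agent.X322.Bt.sol]
    rw [h1, h2, ih.1, ih.2]

lemma orb_fun (α A B u v : ℝ) : orb α A B u v = Pool.Agent.X322.Bt.sol α A B u v :=
  funext (fun n => (orb_eq α A B u v n).1)

lemma par (α A B : ℝ) (hα : 0 < α) (hB : 1 < B) (hA0 : 0 ≤ A) (hA1 : A < 1)
    (H : α < (B-1)*(1-A)^2/4) :
    Pool.Agent.X322.Bt.Par α A B (xbar α A B) (mlow α A B) (Mhigh α A B) := by
  have hB1 : 0 < B - 1 := by linarith
  have hB2 : 0 < 1 + B := by linarith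
  have hA : 0 < 1 - A := by linarith
  -- equilibrium
  set r := √((1-A)^2 + 4*α*(1+B)) with hr
  have hr2 : r^2 = (1-A)^2 + 4*α*(1+B) := Real.sq_sqrt (by positivity)
  have hr0 : 0 ≤ r := Real.sqrt_nonneg _
  set e := xbar α A B with he
  have hee0 : 2*(1+B)*e = 1 - A + r := by
    have h0 : e = (1 - A + r)/(2*(1+B)) := rfl
    rw [h0, mul_div_cancel₀ _ (by positivity : (2*(1+B)) ≠ 0)]
  have hep : 0 < e := by
    have : 0 < 2*(1+B)*e := by rw [hee0]; linarith
    exact (mul_pos_iff_of_pos_left (by positivity : 0 < 2*(1+B))).mp this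
  have hee : (1+B)*e^2 = (1-A)*e + α := by
    have h1 : r = 2*(1+B)*e - (1-A) := by linarith
    rw [h1] at hr2
    have h2 : 4*(1+B)*((1+B)*e^2 - (1-A)*e - α) = 0 := by linear_combination hr2
    rcases mul_eq_zero.mp h2 with h3 | h3
    · exfalso; nlinarith
    · linarith
  have he2 : 2*e < 1 - A := by
    by_contra hc
    push Not at hc
    have h1 : 0 ≤ (e - (1-A)/2) := by linarith
    have h2 : 0 ≤ (e - (1-A)/2)*((1+B)*(e + (1-A)/2) - (1-A)) := by
      apply mul_nonneg h1
      nlinarith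
    nlinarith
  -- two-cycle
  set D := (1-A)^2 - 4*α/(B-1) with hD
  have hD0 : 0 < D := by
    have : 4*α/(B-1) < (1-A)^2 := by
      rw [div_lt_iff₀ hB1]; linarith
    rw [hD]; linarith
  set s := √D with hs
  have hs2 : s^2 = D := Real.sq_sqrt hD0.le
  have hs0 : 0 < s := Real.sqrt_pos.mpr hD0
  have hm : mlow α A B = (1 - A - s)/2 := rfl
  have hM : Mhigh α A B = (1 - A + s)/2 := rfl
  have hprod : (B-1)*(mlow α A B * Mhigh α A B) = α := by
    rw [hm, hM]
    have h1 : (B-1)*((1 - A - s)/2 * ((1 - A + s)/2)) = (B-1)*((1-A)^2 - s^2)/4 := by ring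
    rw [h1, hs2, hD]; field_simp; ring
  have hslt : s < 1 - A := by
    have h1 : D < (1-A)^2 := by
      rw [hD]; have : 0 < 4*α/(B-1) := by positivity
      linarith
    nlinarith
  have hmM : mlow α A B < Mhigh α A B := by rw [hm, hM]; linarith
  have hsum : mlow α A B + Mhigh α A B = 1 - A := by rw [hm, hM]; ring
  have hmpos : 0 < mlow α A B := by rw [hm]; linarith
  have hq : (B-1)*((e - mlow α A B)*(e - Mhigh α A B)) = B*e*(2*e-(1-A)) := by
    have hM' : Mhigh α A B = 1 - A - mlow α A B := by linarith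
    rw [hM'] at hprod ⊢
    linear_combination hprod - hee
  have hneg : (e - mlow α A B)*(e - Mhigh α A B) < 0 := by
    by_contra hc
    push Not at hc
    have h1 : 0 ≤ (B-1)*((e - mlow α A B)*(e - Mhigh α A B)) := mul_nonneg hB1.le hc
    rw [hq] at h1
    have h2 : 0 < B*e*((1-A)-2*e) := mul_pos (by positivity) (by linarith)
    nlinarith
  refine ⟨hα, hB, hA0, hA1, hep, hee, he2, hmpos, ?_, ?_, hsum, hprod⟩
  · by_contra hc
    push Not at hc
    have : 0 ≤ (mlow α A B - e)*(Mhigh α A B - e) := mul_nonneg (by linarith) (by linarith)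
    nlinarith
  · by_contra hc
    push Not at hc
    have : 0 ≤ (e - mlow α A B)*(e - Mhigh α A B) := mul_nonneg (by linarith) (by linarith)
    linarith

/-- Under (H) the pairs attracted to the equilibrium form the graph of a continuous strictly
increasing function `φ`, the unique increasing solution of
`φ(φ(u)) = (α+u)/(A+Bφ(u)+u)`; the pairs below the graph are attracted to `(m,M)` and those above
it to `(M,m)`. The graph consists of the pairs whose solution stays on one side of the equilibrium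
(or is constant), and the two regions are explicit unions of semialgebraic sets. -/
theorem result (α A B : ℝ) (hα : 0 < α) (hB : 1 < B) (hA0 : 0 ≤ A) (hA1 : A < 1)
    (H : α < (B-1)*(1-A)^2/4) :
    ∃ φ : ℝ → ℝ,
      StrictMonoOn φ (Ici 0) ∧ ContinuousOn φ (Ici 0) ∧ (∀ u, 0 ≤ u → 0 < φ u) ∧
      φ (xbar α A B) = xbar α A B ∧
      (∀ u, 0 ≤ u → φ (φ u) = (α+u)/(A+B*φ u+u)) ∧
      (∀ ψ : ℝ → ℝ, MonotoneOn ψ (Ici 0) →
        (∀ u, 0 ≤ u → 0 ≤ ψ u ∧ 0 < A+B*ψ u+u ∧ ψ (ψ u) = (α+u)/(A+B*ψ u+u)) →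
        ∀ u, 0 ≤ u → ψ u = φ u) ∧
      (∀ u v, Adm A u v →
        (v < φ u → CycTo α A B u v (mlow α A B) (Mhigh α A B)) ∧
        (φ u < v → CycTo α A B u v (Mhigh α A B) (mlow α A B)) ∧
        (v = φ u → Tendsto (orb α A B u v) atTop (𝓝 (xbar α A B))) ∧
        (v = φ u ↔ OneSided α A B u v) ∧
        (v < φ u ↔ ∃ k : ℕ, orb α A B u v (2*k+1) < xbar α A B ∧
          xbar α A B < orb α A B u v (2*k+2)) ∧
        (φ u < v ↔ ∃ k : ℕ, orb α A B u v (2*k) < xbar α A B ∧
          xbar α A B < orb α A B u v (2*k+1)) ∧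
        (v ≠ φ u ↔ InS α A B u v)) := by
  have P := par α A B hα hB hA0 hA1 H
  obtain ⟨φ, h1, h2, h3, h4, h5, h6, h7⟩ := Pool.Agent.X322.Bt.main P
  refine ⟨φ, h1, h2, h3, h4, h5, h6, ?_⟩
  intro u v hadm
  obtain ⟨hu, hv, hne⟩ := hadm
  have hd : 0 < A + B*v + u := by
    rcases hA0.eq_or_lt with h | h
    · have h0 := hne h.symm
      rcases hu.eq_or_lt with hu' | hu'
      · rcases hv.eq_or_lt with hv' | hv'
        · exact absurd (by rw [← hu', ← hv']) h0
        · have : 0 < B*v := by positivity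
          linarith
      · have : 0 ≤ B*v := by positivity
        linarith
    · have : 0 ≤ B*v := by positivity
      linarith
  have hS := Pool.Agent.X322.Bt.sol_is (α := α) hu hv hd
  obtain ⟨k1, k2, k3⟩ := h7 u v hu hv hd
  have mk : ∀ a b : ℝ, Tendsto (fun k => Pool.Agent.X322.Bt.sol α A B u v (2*k)) atTop (𝓝 b) →
      Tendsto (fun k => Pool.Agent.X322.Bt.sol α A B u v (2*k+1)) atTop (𝓝 a) →
      CycTo α A B u v a b := by
    intro a b ha hb
    unfold CycTo
    rw [orb_fun]
    refine hb.prodMk_nhds ?_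
    have := ha.comp (tendsto_add_atTop_nat 1)
    refine this.congr (fun k => ?_)
    simp only [Function.comp]; congr 1
  have a1 : v < φ u → CycTo α A B u v (mlow α A B) (Mhigh α A B) := by
    intro h
    have := Pool.Agent.X322.Bt.convB P hS (k2 h)
    exact mk _ _ this.1 this.2
  have a2 : φ u < v → CycTo α A B u v (Mhigh α A B) (mlow α A B) := by
    intro h
    have := Pool.Agent.X322.Bt.convA P hS (k3 h)
    exact mk _ _ this.1 this.2
  have a3 : v = φ u → Tendsto (orb α A B u v) atTop (𝓝 (xbar α A B)) := by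
    intro h
    rw [orb_fun]
    exact Pool.Agent.X322.Bt.convW P hS (k1.mp h)
  refine ⟨a1, a2, a3, ?_, ?_, ?_, ?_⟩
  · rw [k1]
    unfold OneSided Pool.Agent.X322.Bt.WW
    rw [orb_fun]
    constructor
    · rintro (⟨q0, q1⟩ | q | q)
      · exact Or.inl (fun n => (Pool.Agent.X322.Bt.wconst P hS q0 q1 n).1)
      · exact Or.inr (Or.inl q)
      · exact Or.inr (Or.inr q)
    · rintro (q | q | q)
      · exact Or.inl ⟨q 0, q 1⟩
      · exact Or.inr (Or.inl q)
      · exact Or.inr (Or.inr q)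
  · rw [orb_fun]
    refine ⟨fun h => k2 h, fun h => ?_⟩
    have hb : Pool.Agent.X322.Bt.Be (xbar α A B) (Pool.Agent.X322.Bt.sol α A B u v) := h
    rcases lt_trichotomy v (φ u) with q | q | q
    · exact q
    · exact (Pool.Agent.X322.Bt.nWB P hS (k1.mp q) hb).elim
    · exact (Pool.Agent.X322.Bt.nAB P hS (k3 q) hb).elim
  · rw [orb_fun]
    refine ⟨fun h => k3 h, fun h => ?_⟩
    have ha : Pool.Agent.X322.Bt.Ab (xbar α A B) (Pool.Agent.X322.Bt.sol α A B u v) := h
    rcases lt_trichotomy v (φ u) with q | q | q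
    · exact (Pool.Agent.X322.Bt.nAB P hS ha (k2 q)).elim
    · exact (Pool.Agent.X322.Bt.nWA P hS (k1.mp q) ha).elim
    · exact q
  · constructor
    · intro h
      refine ⟨⟨hu, hv, hne⟩, ?_⟩
      rcases lt_or_gt_of_ne h with h | h
      · exact Or.inl (a1 h)
      · exact Or.inr (a2 h)
    · rintro ⟨_, h⟩ heq
      have t := a3 heq
      have t1 : Tendsto (fun n : ℕ => orb α A B u v (2*n+1)) atTop (𝓝 (xbar α A B)) := by
        refine t.comp (tendsto_atTop_mono (fun n => ?_) tendsto_id)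
        simp only [id]; omega
      have hme := P.hme
      have heM := P.heM
      rcases h with h | h
      · have t2 : Tendsto (fun n : ℕ => orb α A B u v (2*n+1)) atTop (𝓝 (mlow α A B)) :=
          (continuous_fst.tendsto _).comp h
        have := tendsto_nhds_unique t1 t2
        linarith
      · have t2 : Tendsto (fun n : ℕ => orb α A B u v (2*n+1)) atTop (𝓝 (Mhigh α A B)) :=
          (continuous_fst.tendsto _).comp h
        have := tendsto_nhds_unique t1 t2
        linarith

end Pool.Agent.Results.MP_a0c75d_an.Basin
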